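import Mathlib

set_option autoImplicit false

open Set

namespace Pool.Agent.Work.MP_ee811a_an

/-- The code of the initial segment of length `m` of `x`. -/
def code (x : ℕ → Bool) (m : ℕ) : ℕ := Encodable.encode (List.ofFn (fun i : Fin m => x i))

lemma code_inj {x y : ℕ → Bool} {m k : ℕ} (h : code x m = code y k) :
    m = k ∧ ∀ i < m, x i = y i := by
  have h1 := Encodable.encode_injective h
  have h2 : m = k := by
    have := congrArg List.length h1
    simpa using this
  subst h2
  refine ⟨rfl, fun i hi => ?_⟩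
  have h3 := List.ofFn_injective h1
  exact congrFun h3 ⟨i, hi⟩

/-- The branch sets. -/
def br (x : ℕ → Bool) : Set ℕ := range (code x)

lemma br_infinite (x : ℕ → Bool) : (br x).Infinite := by
  apply infinite_range_of_injective
  intro m k h
  exact (code_inj h).1

lemma br_ad {x y : ℕ → Bool} (hxy : x ≠ y) : (br x ∩ br y).Finite := by
  obtain ⟨k, hk⟩ := Function.ne_iff.mp hxy
  apply ((finite_Iic k).image (code x)).subset
  rintro n ⟨⟨m, rfl⟩, ⟨l, hl⟩⟩
  refine ⟨m, ?_, rfl⟩
  rw [mem_Iic]
  by_contra hcon
  push Not at hcon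
  exact hk ((code_inj hl.symm).2 k hcon)

lemma uncountable_index : ¬ (univ : Set (ℕ → Bool)).Countable := by
  intro h
  have h1 : Countable (ℕ → Bool) := countable_univ_iff.mp h
  obtain ⟨f, hf⟩ := exists_surjective_nat (ℕ → Bool)
  obtain ⟨n, hn⟩ := hf (fun n => !(f n n))
  have := congrFun hn n
  simp at this

end Pool.Agent.Work.MP_ee811a_an
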