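import Mathlib

set_option autoImplicit false

open MeasureTheory Filter Topology Set

namespace Pool.Agent.Work.MP_ee811a_an

section Measures

attribute [local instance] borel

/-- The set `M¹(K)` of Radon probabilities on a (compact Hausdorff) space `K`: the regular
probability measures on the Borel sets of `K`. -/
def RadonProb (K : Type*) [TopologicalSpace K] : Type _ :=
  {μ : Measure K // IsProbabilityMeasure μ ∧ μ.Regular}

/-- The integral of a function against a Radon probability. -/
noncomputable def RadonProb.int {K : Type*} [TopologicalSpace K] (μ : RadonProb K)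
    (f : K → ℝ) : ℝ := ∫ x, f x ∂μ.1

/-- The weak* topology on `M¹(K)`: the coarsest topology making the integrals of all
continuous functions continuous. -/
noncomputable instance instTopologicalSpaceRadonProb {K : Type*} [TopologicalSpace K] :
    TopologicalSpace (RadonProb K) :=
  TopologicalSpace.induced (fun μ (f : C(K, ℝ)) => μ.int f) inferInstance

end Measures

section Choquet

variable {E : Type*} [AddCommGroup E] [Module ℝ E] [TopologicalSpace E]

/-- `μ ≺ ν`: `μ(f) ≤ ν(f)` for every continuous convex function `f` on `X`. -/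
def Precedes {X : Set E} (μ ν : RadonProb X) : Prop :=
  ∀ f : E → ℝ, ContinuousOn f X → ConvexOn ℝ X f → μ.int (fun x => f x) ≤ ν.int (fun x => f x)

/-- `μ` is maximal for `≺`. -/
def IsMaximal {X : Set E} (μ : RadonProb X) : Prop :=
  ∀ ν : RadonProb X, Precedes μ ν → ν = μ

/-- `μ` represents `x`: `a(x) = μ(a)` for every continuous affine function `a` on `X`. -/
def Represents {X : Set E} (μ : RadonProb X) (x : X) : Prop :=
  ∀ a : E → ℝ, ContinuousOn a X → ConvexOn ℝ X a → ConcaveOn ℝ X a → a x = μ.int (fun y => a y)

/-- `X` is a simplex: every point is represented by exactly one maximal measure. -/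
def IsSimplex (X : Set E) : Prop :=
  ∀ x : X, ∃! μ : RadonProb X, IsMaximal μ ∧ Represents μ x

/-- The extreme points of `X`, as a subset of the space `X`. -/
def extBoundary (X : Set E) : Set X := {x | (x : E) ∈ X.extremePoints ℝ}

end Choquet

/-- `S` is an `F_σ` set. -/
def IsFsigma {K : Type*} [TopologicalSpace K] (S : Set K) : Prop :=
  ∃ C : ℕ → Set K, (∀ n, IsClosed (C n)) ∧ S = ⋃ n, C n

/-- `S` is `K`-analytic: the union of the values of an upper semicontinuous compact-valued map
defined on the Baire space `ℕ^ℕ`. -/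
def IsKAnalytic {K : Type*} [TopologicalSpace K] (S : Set K) : Prop :=
  ∃ Φ : (ℕ → ℕ) → Set K, (∀ σ, IsCompact (Φ σ)) ∧
    (∀ σ, ∀ U : Set K, IsOpen U → Φ σ ⊆ U → ∀ᶠ τ in 𝓝 σ, Φ τ ⊆ U) ∧ S = ⋃ σ, Φ σ

/-- `T` is of the class `C₁`: the pointwise limit of a sequence of continuous maps. -/
def IsBaireOne {K Y : Type*} [TopologicalSpace K] [TopologicalSpace Y] (T : K → Y) : Prop :=
  ∃ S : ℕ → K → Y, (∀ n, Continuous (S n)) ∧ ∀ x, Tendsto (fun n => S n x) atTop (𝓝 (T x))

end Pool.Agent.Work.MP_ee811a_an
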