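import Mathlib
import Pool.Agent.Work.MP_ee811a_an.Defs

set_option autoImplicit false

open MeasureTheory Filter Topology Set

namespace Pool.Agent.Work.MP_ee811a_an

open Classical in
/-- The compact convex set attached to a family `A` of subsets of `ℕ`, inside `ℝ^(J ⊕ ℕ)`. -/
def XX {J : Type} (A : J → Set ℕ) : Set (J ⊕ ℕ → ℝ) :=
  {p | (∀ n, 0 ≤ p (.inr n)) ∧
    (∀ j, ∀ F : Finset ℕ, ∑ n ∈ F, (if n ∈ A j then p (.inr n) else 0) ≤ p (.inl j)) ∧
    (∀ (G : Finset J) (F : Finset ℕ),
      (∀ i ∈ G, ∀ j ∈ G, i ≠ j → ∀ n, n ∈ A i → n ∈ A j → n ∈ F) →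
      ∑ n ∈ F, p (.inr n) - (1 / 2) * ∑ j ∈ G, ∑ n ∈ F, (if n ∈ A j then p (.inr n) else 0)
        + (1 / 2) * ∑ j ∈ G, p (.inl j) ≤ 1)}

open Classical in
/-- The vertices. -/
noncomputable def vtx {J : Type} (A : J → Set ℕ) : J ⊕ ℕ → (J ⊕ ℕ → ℝ)
  | .inl j => fun i => if i = .inl j then 2 else 0
  | .inr n => fun i => match i with
    | .inl j => if n ∈ A j then 1 else 0
    | .inr m => if m = n then 1 else 0

open Classical in
/-- The coordinates with respect to the vertices. -/
noncomputable def cf {J : Type} (A : J → Set ℕ) : J ⊕ ℕ → (J ⊕ ℕ → ℝ) → ℝ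
  | .inl j, p => (p (.inl j) - ∑' n, if n ∈ A j then p (.inr n) else 0) / 2
  | .inr n, p => p (.inr n)

variable {J : Type} {A : J → Set ℕ}

lemma XX_bound_inr {p : J ⊕ ℕ → ℝ} (hp : p ∈ XX A) (F : Finset ℕ) :
    ∑ n ∈ F, p (.inr n) ≤ 1 := by
  have h := hp.2.2 ∅ F (by simp)
  simpa using h

lemma XX_summable {p : J ⊕ ℕ → ℝ} (hp : p ∈ XX A) : Summable (fun n => p (.inr n)) :=
  summable_of_sum_le hp.1 (XX_bound_inr hp)

open Classical in
lemma XX_summable' {p : J ⊕ ℕ → ℝ} (hp : p ∈ XX A) (j : J) :
    Summable (fun n => if n ∈ A j then p (.inr n) else 0) := by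
  refine Summable.of_nonneg_of_le (fun n => ?_) (fun n => ?_) (XX_summable hp)
  · split_ifs
    · exact hp.1 n
    · exact le_rfl
  · split_ifs
    · exact le_rfl
    · exact hp.1 n

lemma cf_nonneg {p : J ⊕ ℕ → ℝ} (hp : p ∈ XX A) (i : J ⊕ ℕ) : 0 ≤ cf A i p := by
  classical
  rcases i with j | n
  · have h : (∑' n, if n ∈ A j then p (.inr n) else 0) ≤ p (.inl j) := by
      apply (XX_summable' hp j).tsum_le_of_sum_le
      intro F
      exact hp.2.1 j F
    simp only [cf]
    linarith
  · exact hp.1 n

lemma cf_sum_le_aux (had : ∀ i j, i ≠ j → (A i ∩ A j).Finite) {p : J ⊕ ℕ → ℝ} (hp : p ∈ XX A)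
    (G : Finset J) (F : Finset ℕ) :
    ∑ j ∈ G, cf A (.inl j) p + ∑ n ∈ F, cf A (.inr n) p ≤ 1 := by
  classical
  -- enlarge F
  set F0 : Finset ℕ := F ∪ G.biUnion (fun i => G.biUnion (fun j =>
    if h : i ≠ j then (had i j h).toFinset else ∅)) with hF0
  have hF0' : ∀ i ∈ G, ∀ j ∈ G, i ≠ j → ∀ n, n ∈ A i → n ∈ A j → n ∈ F0 := by
    intro i hi j hj hij n h1 h2
    rw [hF0, Finset.mem_union]
    right
    rw [Finset.mem_biUnion]
    refine ⟨i, hi, ?_⟩
    rw [Finset.mem_biUnion]
    refine ⟨j, hj, ?_⟩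
    rw [dif_pos hij, Set.Finite.mem_toFinset]
    exact ⟨h1, h2⟩
  have h := hp.2.2 G F0 hF0'
  have h1 : ∑ n ∈ F, cf A (.inr n) p ≤ ∑ n ∈ F0, p (.inr n) := by
    apply Finset.sum_le_sum_of_subset_of_nonneg
    · exact Finset.subset_union_left
    · intro n _ _; exact hp.1 n
  have h2 : ∑ j ∈ G, cf A (.inl j) p ≤
      (1 / 2) * ∑ j ∈ G, p (.inl j) -
      (1 / 2) * ∑ j ∈ G, ∑ n ∈ F0, (if n ∈ A j then p (.inr n) else 0) := by
    rw [Finset.mul_sum, Finset.mul_sum, ← Finset.sum_sub_distrib]
    apply Finset.sum_le_sum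
    intro j _
    have h3 : ∑ n ∈ F0, (if n ∈ A j then p (.inr n) else 0) ≤
        ∑' n, if n ∈ A j then p (.inr n) else 0 := by
      apply (XX_summable' hp j).sum_le_tsum
      intro n _
      split_ifs
      · exact hp.1 n
      · exact le_rfl
    simp only [cf]
    linarith
  linarith

lemma cf_sum_le (had : ∀ i j, i ≠ j → (A i ∩ A j).Finite) {p : J ⊕ ℕ → ℝ} (hp : p ∈ XX A)
    (H : Finset (J ⊕ ℕ)) : ∑ i ∈ H, cf A i p ≤ 1 := by
  classical
  have h := cf_sum_le_aux had hp H.toLeft H.toRight
  have h2 := Finset.sum_disjSum H.toLeft H.toRight (fun i => cf A i p)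
  rw [Finset.toLeft_disjSum_toRight] at h2
  rw [h2]
  exact h

open Classical in
lemma isClosed_XX : IsClosed (XX A) := by
  have h1 : IsClosed {p : J ⊕ ℕ → ℝ | ∀ n, 0 ≤ p (.inr n)} := by
    rw [ofPred_forall]
    exact isClosed_iInter fun n => isClosed_le continuous_const (continuous_apply _)
  have h2 : IsClosed {p : J ⊕ ℕ → ℝ | ∀ j, ∀ F : Finset ℕ,
      ∑ n ∈ F, (if n ∈ A j then p (.inr n) else 0) ≤ p (.inl j)} := by
    simp only [ofPred_forall]
    refine isClosed_iInter fun j => isClosed_iInter fun F => isClosed_le ?_ (continuous_apply _)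
    refine continuous_finsetSum _ fun n _ => ?_
    split_ifs
    · exact continuous_apply _
    · exact continuous_const
  have h3 : IsClosed {p : J ⊕ ℕ → ℝ | ∀ (G : Finset J) (F : Finset ℕ),
      (∀ i ∈ G, ∀ j ∈ G, i ≠ j → ∀ n, n ∈ A i → n ∈ A j → n ∈ F) →
      ∑ n ∈ F, p (.inr n) - (1 / 2) * ∑ j ∈ G, ∑ n ∈ F, (if n ∈ A j then p (.inr n) else 0)
        + (1 / 2) * ∑ j ∈ G, p (.inl j) ≤ 1} := by
    simp only [ofPred_forall]
    refine isClosed_iInter fun G => isClosed_iInter fun F => isClosed_iInter fun _ =>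
      isClosed_le ?_ continuous_const
    refine Continuous.add (Continuous.sub ?_ (Continuous.mul continuous_const ?_))
      (Continuous.mul continuous_const ?_)
    · exact continuous_finsetSum _ fun n _ => continuous_apply _
    · refine continuous_finsetSum _ fun j _ => continuous_finsetSum _ fun n _ => ?_
      split_ifs
      · exact continuous_apply _
      · exact continuous_const
    · exact continuous_finsetSum _ fun n _ => continuous_apply _
  exact h1.inter (h2.inter h3)

lemma convex_XX : Convex ℝ (XX A) := by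
  classical
  intro p hp q hq a b ha hb hab
  have hsum : ∀ (j : J) (F : Finset ℕ),
      ∑ n ∈ F, (if n ∈ A j then (a • p + b • q) (.inr n) else 0) =
      a * ∑ n ∈ F, (if n ∈ A j then p (.inr n) else 0) +
      b * ∑ n ∈ F, (if n ∈ A j then q (.inr n) else 0) := by
    intro j F
    rw [Finset.mul_sum, Finset.mul_sum, ← Finset.sum_add_distrib]
    apply Finset.sum_congr rfl
    intro n _
    split_ifs
    · simp
    · simp
  refine ⟨?_, ?_, ?_⟩
  · intro n
    have h1 := hp.1 n
    have h2 := hq.1 n
    simp only [Pi.add_apply, Pi.smul_apply, smul_eq_mul]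
    positivity
  · intro j F
    rw [hsum]
    have h1 := hp.2.1 j F
    have h2 := hq.2.1 j F
    simp only [Pi.add_apply, Pi.smul_apply, smul_eq_mul]
    nlinarith [mul_le_mul_of_nonneg_left h1 ha, mul_le_mul_of_nonneg_left h2 hb]
  · intro G F hF
    have h1 := hp.2.2 G F hF
    have h2 := hq.2.2 G F hF
    simp only [hsum]
    simp only [Pi.add_apply, Pi.smul_apply, smul_eq_mul]
    rw [Finset.sum_add_distrib, Finset.sum_add_distrib, Finset.sum_add_distrib,
      ← Finset.mul_sum, ← Finset.mul_sum, ← Finset.mul_sum, ← Finset.mul_sum, ← Finset.mul_sum,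
      ← Finset.mul_sum]
    have h3 := mul_le_mul_of_nonneg_left h1 ha
    have h4 := mul_le_mul_of_nonneg_left h2 hb
    linarith

lemma isCompact_XX : IsCompact (XX A) := by
  classical
  have hsub : XX A ⊆ Set.univ.pi (fun _ : J ⊕ ℕ => Set.Icc (0 : ℝ) 2) := by
    intro p hp i _
    rcases i with j | n
    · constructor
      · have := hp.2.1 j ∅
        simpa using this
      · have := hp.2.2 {j} ∅ (by
          intro i hi k hk hik
          rw [Finset.mem_singleton] at hi hk
          exact absurd (hi.trans hk.symm) hik)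
        simp only [Finset.sum_empty, Finset.sum_singleton] at this
        linarith
    · constructor
      · exact hp.1 n
      · have := XX_bound_inr hp {n}
        rw [Finset.sum_singleton] at this
        linarith
  exact (isCompact_univ_pi (fun _ => isCompact_Icc)).of_isClosed_subset isClosed_XX hsub

lemma zero_mem_XX : (0 : J ⊕ ℕ → ℝ) ∈ XX A := by
  refine ⟨?_, ?_, ?_⟩
  · intro n; simp
  · intro j F; simp
  · intro G F _; simp

lemma vtx_mem_XX (i : J ⊕ ℕ) : vtx A i ∈ XX A := by
  classical
  rcases i with j | m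
  · refine ⟨?_, ?_, ?_⟩
    · intro n; simp [vtx]
    · intro k F
      have : ∑ n ∈ F, (if n ∈ A k then vtx A (.inl j) (.inr n) else 0) = 0 := by
        apply Finset.sum_eq_zero
        intro n _
        simp [vtx]
      rw [this]
      simp only [vtx]
      split_ifs <;> norm_num
    · intro G F _
      have h1 : ∑ n ∈ F, vtx A (.inl j) (.inr n) = 0 := by
        apply Finset.sum_eq_zero
        intro n _
        simp [vtx]
      have h2 : ∑ k ∈ G, ∑ n ∈ F, (if n ∈ A k then vtx A (.inl j) (.inr n) else 0) = 0 := by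
        apply Finset.sum_eq_zero
        intro k _
        apply Finset.sum_eq_zero
        intro n _
        simp [vtx]
      have h3 : ∑ k ∈ G, vtx A (.inl j) (.inl k) ≤ 2 := by
        simp only [vtx, Sum.inl.injEq]
        rw [Finset.sum_ite_eq']
        split_ifs <;> norm_num
      rw [h1, h2]
      linarith
  · refine ⟨?_, ?_, ?_⟩
    · intro n
      simp only [vtx]
      split_ifs <;> norm_num
    · intro k F
      have h1 : ∀ n, (if n ∈ A k then vtx A (.inr m) (.inr n) else 0) =
          if n = m then (if m ∈ A k then (1 : ℝ) else 0) else 0 := by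
        intro n
        simp only [vtx]
        by_cases h : n = m
        · subst h; simp
        · simp [h]
      simp only [h1]
      rw [Finset.sum_ite_eq']
      simp only [vtx]
      split_ifs <;> norm_num
    · intro G F hF
      have h1 : ∀ (k : J) n, (if n ∈ A k then vtx A (.inr m) (.inr n) else 0) =
          if n = m then (if m ∈ A k then (1 : ℝ) else 0) else 0 := by
        intro k n
        simp only [vtx]
        by_cases h : n = m
        · subst h; simp
        · simp [h]
      simp only [h1, Finset.sum_ite_eq']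
      have h2 : ∑ n ∈ F, vtx A (.inr m) (.inr n) = if m ∈ F then 1 else 0 := by
        simp only [vtx]
        rw [Finset.sum_ite_eq']
      rw [h2]
      have h3 : ∀ k : J, vtx A (.inr m) (.inl k) = if m ∈ A k then 1 else 0 := fun k => rfl
      simp only [h3]
      by_cases hm : m ∈ F
      · simp only [if_pos hm]
        linarith
      · simp only [if_neg hm, Finset.sum_const_zero]
        have h4 : ∑ k ∈ G, (if m ∈ A k then (1 : ℝ) else 0) ≤ 1 := by
          by_cases h5 : ∃ k ∈ G, m ∈ A k
          · obtain ⟨k, hk, hmk⟩ := h5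
            rw [Finset.sum_eq_single_of_mem k hk]
            · rw [if_pos hmk]
            · intro l hl hlk
              rw [if_neg]
              intro hml
              exact hm (hF l hl k hk hlk m hml hmk)
          · push Not at h5
            rw [Finset.sum_eq_zero]
            · norm_num
            · intro k hk
              rw [if_neg (h5 k hk)]
        linarith

end Pool.Agent.Work.MP_ee811a_an
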