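import Mathlib
import Pool.Agent.Work.MP_ee811a_an.Simplex

set_option autoImplicit false

open MeasureTheory Filter Topology Set

namespace Pool.Agent.Work.MP_ee811a_an

variable {J : Type} {A : J → Set ℕ}

lemma hasSum_cf {p : J ⊕ ℕ → ℝ} (hp : p ∈ XX A) :
    HasSum (fun i => cf A i p • vtx A i) p := by
  classical
  rw [Pi.hasSum]
  intro k
  rcases k with j | m
  · have h1 : HasSum (fun i : J => (cf A (.inl i) p • vtx A (.inl i)) (.inl j))
        (2 * cf A (.inl j) p) := by
      have : (fun i : J => (cf A (.inl i) p • vtx A (.inl i)) (.inl j)) =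
          fun i => if i = j then 2 * cf A (.inl j) p else 0 := by
        funext i
        simp only [Pi.smul_apply, smul_eq_mul, vtx, Sum.inl.injEq]
        by_cases h : i = j
        · subst h; simp; ring
        · rw [if_neg h, if_neg (fun hh => h hh.symm), mul_zero]
      rw [this]
      exact hasSum_ite_eq j _
    have h2 : HasSum (fun n : ℕ => (cf A (.inr n) p • vtx A (.inr n)) (.inl j))
        (∑' n, if n ∈ A j then p (.inr n) else 0) := by
      have : (fun n : ℕ => (cf A (.inr n) p • vtx A (.inr n)) (.inl j)) =
          fun n => if n ∈ A j then p (.inr n) else 0 := by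
        funext n
        simp only [Pi.smul_apply, smul_eq_mul, vtx, cf]
        split_ifs <;> simp
      rw [this]
      exact (XX_summable' hp j).hasSum
    have h3 := HasSum.sum (f := fun i : J ⊕ ℕ => (cf A i p • vtx A i) (.inl j)) h1 h2
    have h4 : 2 * cf A (.inl j) p + (∑' n, if n ∈ A j then p (.inr n) else 0) = p (.inl j) := by
      simp only [cf]
      ring
    rw [h4] at h3
    exact h3
  · have h1 : HasSum (fun i : J => (cf A (.inl i) p • vtx A (.inl i)) (.inr m)) 0 := by
      have : (fun i : J => (cf A (.inl i) p • vtx A (.inl i)) (.inr m)) = fun _ => 0 := by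
        funext i
        simp [vtx]
      rw [this]
      exact hasSum_zero
    have h2 : HasSum (fun n : ℕ => (cf A (.inr n) p • vtx A (.inr n)) (.inr m)) (p (.inr m)) := by
      have : (fun n : ℕ => (cf A (.inr n) p • vtx A (.inr n)) (.inr m)) =
          fun n => if n = m then p (.inr m) else 0 := by
        funext n
        simp only [Pi.smul_apply, smul_eq_mul, vtx, cf]
        by_cases h : n = m
        · subst h; simp
        · rw [if_neg h, if_neg (fun hh => h hh.symm), mul_zero]
      rw [this]
      exact hasSum_ite_eq m _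
    have h3 := HasSum.sum (f := fun i : J ⊕ ℕ => (cf A i p • vtx A i) (.inr m)) h1 h2
    rw [zero_add] at h3
    exact h3

lemma comb_mem {w : J ⊕ ℕ → ℝ} (hw : ∀ i, 0 ≤ w i) (H : Finset (J ⊕ ℕ))
    (hH : ∑ i ∈ H, w i ≤ 1) : ∑ i ∈ H, w i • vtx A i ∈ XX A := by
  classical
  by_cases h0 : ∑ i ∈ H, w i = 0
  · have h1 : ∑ i ∈ H, w i • vtx A i = 0 := by
      apply Finset.sum_eq_zero
      intro i hi
      have := (Finset.sum_eq_zero_iff_of_nonneg (fun i _ => hw i)).mp h0 i hi
      rw [this, zero_smul]
    rw [h1]
    exact zero_mem_XX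
  · have hpos : 0 < ∑ i ∈ H, w i := lt_of_le_of_ne (Finset.sum_nonneg fun i _ => hw i) (Ne.symm h0)
    have h1 : H.centerMass w (vtx A) ∈ XX A :=
      convex_XX.centerMass_mem (fun i _ => hw i) hpos (fun i _ => vtx_mem_XX i)
    have h2 : ∑ i ∈ H, w i • vtx A i =
        (∑ i ∈ H, w i) • H.centerMass w (vtx A) + (1 - ∑ i ∈ H, w i) • (0 : J ⊕ ℕ → ℝ) := by
      rw [smul_zero, add_zero, Finset.centerMass, smul_smul, mul_inv_cancel₀ h0, one_smul]
    rw [h2]
    exact convex_XX h1 zero_mem_XX hpos.le (by linarith) (by ring)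

lemma mem_of_hasSum {w : J ⊕ ℕ → ℝ} (hw : ∀ i, 0 ≤ w i)
    (hH : ∀ H : Finset (J ⊕ ℕ), ∑ i ∈ H, w i ≤ 1) {q : J ⊕ ℕ → ℝ}
    (hq : HasSum (fun i => w i • vtx A i) q) : q ∈ XX A :=
  isClosed_XX.mem_of_tendsto hq (Eventually.of_forall fun H => comb_mem hw H (hH H))

lemma cf_vtx (i k : J ⊕ ℕ) [Decidable (i = k)] : cf A i (vtx A k) = if i = k then 1 else 0 := by
  classical
  have hdef : ∀ (j : J) (q : J ⊕ ℕ → ℝ), cf A (.inl j) q =
      (q (.inl j) - ∑' n, if n ∈ A j then q (.inr n) else 0) / 2 := fun _ _ => rfl
  rcases i with j | n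
  · rcases k with l | m
    · have h0 : (∑' n, if n ∈ A j then vtx A (.inl l) (.inr n) else 0) = 0 := by
        have : (fun n => if n ∈ A j then vtx A (.inl l) (.inr n) else 0) = fun _ => 0 := by
          funext n; simp [vtx]
        rw [this, tsum_zero]
      rw [hdef, h0]
      simp only [vtx, Sum.inl.injEq]
      by_cases h : j = l
      · subst h; simp
      · rw [if_neg h, if_neg]
        · norm_num
        · exact h
    · have h0 : (∑' n, if n ∈ A j then vtx A (.inr m) (.inr n) else 0) =
          if m ∈ A j then 1 else 0 := by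
        have : (fun n => if n ∈ A j then vtx A (.inr m) (.inr n) else 0) =
            fun n => if n = m then (if m ∈ A j then (1 : ℝ) else 0) else 0 := by
          funext n
          simp only [vtx]
          by_cases h : n = m
          · subst h; simp
          · simp [h]
        rw [this, tsum_ite_eq]
      have h1 : vtx A (.inr m) (.inl j) = if m ∈ A j then (1 : ℝ) else 0 := rfl
      rw [hdef, h0, h1, sub_self, zero_div, if_neg]
      simp
  · rcases k with l | m
    · simp [cf, vtx]
    · simp only [cf, vtx, Sum.inr.injEq]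

lemma cf_zero (i : J ⊕ ℕ) : cf A i 0 = 0 := by
  rcases i with j | n
  · simp [cf]
  · simp [cf]

lemma cf_comb (i : J ⊕ ℕ) {p q : J ⊕ ℕ → ℝ} (hp : p ∈ XX A) (hq : q ∈ XX A) (a b : ℝ) :
    cf A i (a • p + b • q) = a * cf A i p + b * cf A i q := by
  classical
  rcases i with j | n
  · have h1 : (∑' n, if n ∈ A j then (a • p + b • q) (.inr n) else 0) =
        a * (∑' n, if n ∈ A j then p (.inr n) else 0) +
        b * (∑' n, if n ∈ A j then q (.inr n) else 0) := by
      rw [← tsum_mul_left, ← tsum_mul_left, ← ((XX_summable' hp j).mul_left a).tsum_add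
        ((XX_summable' hq j).mul_left b)]
      congr 1
      funext n
      split_ifs
      · simp
      · simp
    simp only [cf, h1]
    simp only [Pi.add_apply, Pi.smul_apply, smul_eq_mul]
    ring
  · simp [cf]

lemma eq_vtx (had : ∀ i j, i ≠ j → (A i ∩ A j).Finite) {p : J ⊕ ℕ → ℝ} (hp : p ∈ XX A)
    {i : J ⊕ ℕ} (hi : cf A i p = 1) : p = vtx A i := by
  classical
  have h0 : ∀ k, k ≠ i → cf A k p = 0 := by
    intro k hk
    have h1 := cf_sum_le had hp {k, i}
    rw [Finset.sum_pair hk, hi] at h1
    have h2 := cf_nonneg hp k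
    linarith
  have h1 := hasSum_cf hp
  have h2 : HasSum (fun k => cf A k p • vtx A k) (cf A i p • vtx A i) := by
    apply hasSum_single
    intro k hk
    rw [h0 k hk, zero_smul]
  have h3 := h1.unique h2
  rw [hi, one_smul] at h3
  exact h3

lemma eq_zero_of_cf {p : J ⊕ ℕ → ℝ} (hp : p ∈ XX A) (h : ∀ i, cf A i p = 0) : p = 0 := by
  have h1 := hasSum_cf hp
  have h2 : (fun k => cf A k p • vtx A k) = fun _ => 0 := by
    funext k; rw [h k, zero_smul]
  rw [h2] at h1
  exact h1.unique hasSum_zero

lemma extreme_iff (had : ∀ i j, i ≠ j → (A i ∩ A j).Finite) (p : J ⊕ ℕ → ℝ) :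
    p ∈ (XX A).extremePoints ℝ ↔ p = 0 ∨ ∃ i, p = vtx A i := by
  classical
  constructor
  · intro hp
    rw [mem_extremePoints_iff_left] at hp
    obtain ⟨hpX, hp⟩ := hp
    by_cases h0 : ∀ i, cf A i p = 0
    · left; exact eq_zero_of_cf hpX h0
    · right
      push Not at h0
      obtain ⟨i, hi⟩ := h0
      have hipos : 0 < cf A i p := lt_of_le_of_ne (cf_nonneg hpX i) (Ne.symm hi)
      have hile : cf A i p ≤ 1 := by
        have := cf_sum_le had hpX {i}
        rwa [Finset.sum_singleton] at this
      refine ⟨i, ?_⟩
      rcases eq_or_lt_of_le hile with h1 | h1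
      · exact eq_vtx had hpX h1
      · set c := cf A i p with hc
        have hc1 : 0 < 1 - c := by linarith
        set q : J ⊕ ℕ → ℝ := (1 - c)⁻¹ • (p - c • vtx A i) with hq
        set w : J ⊕ ℕ → ℝ := fun k => if k = i then 0 else (1 - c)⁻¹ * cf A k p with hw
        have hw0 : ∀ k, 0 ≤ w k := by
          intro k
          simp only [hw]
          split_ifs
          · exact le_rfl
          · have := cf_nonneg hpX k
            positivity
        have hwH : ∀ H : Finset (J ⊕ ℕ), ∑ k ∈ H, w k ≤ 1 := by
          intro H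
          have h2 : ∑ k ∈ H, w k = (1 - c)⁻¹ * ∑ k ∈ H.erase i, cf A k p := by
            rw [Finset.mul_sum]
            have h3 : ∑ k ∈ H, w k = ∑ k ∈ H.erase i, w k := by
              symm
              apply Finset.sum_subset (Finset.erase_subset _ _)
              intro k hk hk2
              have : k = i := by
                by_contra hne
                exact hk2 (Finset.mem_erase.mpr ⟨hne, hk⟩)
              simp only [hw]
              rw [if_pos this]
            rw [h3]
            apply Finset.sum_congr rfl
            intro k hk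
            simp only [hw]
            rw [if_neg (Finset.ne_of_mem_erase hk)]
          rw [h2]
          have h4 := cf_sum_le had hpX (insert i (H.erase i))
          rw [Finset.sum_insert (Finset.notMem_erase _ _), ← hc] at h4
          rw [inv_mul_le_iff₀ hc1]
          linarith
        have hqs : HasSum (fun k => w k • vtx A k) q := by
          have h2 := hasSum_cf hpX
          have h3 : HasSum (fun k => (if k = i then c • vtx A i else 0)) (c • vtx A i) :=
            hasSum_ite_eq i _
          have h4 := (h2.sub h3).const_smul (1 - c)⁻¹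
          have h5 : (fun k => (1 - c)⁻¹ • (cf A k p • vtx A k - if k = i then c • vtx A i else 0)) =
              fun k => w k • vtx A k := by
            funext k
            simp only [hw]
            by_cases hk : k = i
            · subst hk
              rw [if_pos rfl, if_pos rfl, ← hc, sub_self, smul_zero, zero_smul]
            · rw [if_neg hk, if_neg hk, sub_zero, smul_smul]
          rw [h5] at h4
          exact h4
        have hqX : q ∈ XX A := mem_of_hasSum hw0 hwH hqs
        symm
        apply hp (vtx A i) (vtx_mem_XX i) q hqX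
        refine ⟨c, 1 - c, hipos, hc1, by ring, ?_⟩
        rw [hq, smul_smul, mul_inv_cancel₀ hc1.ne', one_smul]
        abel
  · rintro (rfl | ⟨i, rfl⟩)
    · rw [mem_extremePoints_iff_left]
      refine ⟨zero_mem_XX, ?_⟩
      rintro x hx y hy ⟨a, b, ha, hb, hab, hxy⟩
      apply eq_zero_of_cf hx
      intro i
      have h1 := cf_comb i hx hy a b
      rw [hxy, cf_zero] at h1
      have h2 := cf_nonneg hx i
      have h3 := cf_nonneg hy i
      nlinarith [mul_nonneg ha.le h2, mul_nonneg hb.le h3]
    · rw [mem_extremePoints_iff_left]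
      refine ⟨vtx_mem_XX i, ?_⟩
      rintro x hx y hy ⟨a, b, ha, hb, hab, hxy⟩
      apply eq_vtx had hx
      have h1 := cf_comb i hx hy a b
      rw [hxy, cf_vtx, if_pos rfl] at h1
      have h2 : cf A i x ≤ 1 := by
        have := cf_sum_le had hx {i}
        rwa [Finset.sum_singleton] at this
      have h3 : cf A i y ≤ 1 := by
        have := cf_sum_le had hy {i}
        rwa [Finset.sum_singleton] at this
      have h4 : a * (1 - cf A i x) + b * (1 - cf A i y) = 0 := by linarith
      have h5 : 0 ≤ b * (1 - cf A i y) := mul_nonneg hb.le (by linarith)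
      have h6 : 0 ≤ a * (1 - cf A i x) := mul_nonneg ha.le (by linarith)
      have h7 : a * (1 - cf A i x) = 0 := by linarith
      rcases mul_eq_zero.mp h7 with h8 | h8
      · linarith
      · linarith

end Pool.Agent.Work.MP_ee811a_an
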