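import Mathlib
import Pool.Agent.Work.MP_ee811a_an.Ext

set_option autoImplicit false

open MeasureTheory Filter Topology Set

namespace Pool.Agent.Work.MP_ee811a_an

variable {J : Type} {A : J → Set ℕ}

lemma vtx_tendsto : Tendsto (fun j => vtx A (.inl j)) cofinite (𝓝 0) := by
  classical
  rw [tendsto_pi_nhds]
  intro i
  apply tendsto_const_nhds.congr'
  rcases i with j | n
  · have : {j}ᶜ ∈ (cofinite : Filter J) := (finite_singleton j).compl_mem_cofinite
    filter_upwards [this] with k hk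
    simp only [vtx, Sum.inl.injEq, Pi.zero_apply]
    rw [if_neg]
    intro h
    exact hk h.symm
  · filter_upwards with k
    simp [vtx]

lemma countable_supp {f : (J ⊕ ℕ → ℝ) → ℝ} (hf : ContinuousOn f (XX A)) :
    {i | f (vtx A i) ≠ f 0}.Countable := by
  have h1 : Tendsto (fun j => f (vtx A (.inl j))) cofinite (𝓝 (f 0)) := by
    have h2 : Tendsto (fun j => vtx A (.inl j)) cofinite (𝓝[XX A] 0) := by
      rw [tendsto_nhdsWithin_iff]
      exact ⟨vtx_tendsto, Eventually.of_forall fun j => vtx_mem_XX _⟩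
    exact (hf 0 zero_mem_XX).tendsto.comp h2
  have h3 : {j : J | f (vtx A (.inl j)) ≠ f 0}.Countable := by
    have := h1.countable_compl_preimage_ker
    rw [ker_nhds] at this
    exact this
  have h4 : {i | f (vtx A i) ≠ f 0} ⊆
      Sum.inl '' {j : J | f (vtx A (.inl j)) ≠ f 0} ∪ range Sum.inr := by
    rintro (j | n) h
    · left; exact ⟨j, h, rfl⟩
    · right; exact ⟨n, rfl⟩
  exact ((h3.image _).union (countable_range _)).mono h4

lemma bdd_on {f : (J ⊕ ℕ → ℝ) → ℝ} (hf : ContinuousOn f (XX A)) :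
    ∃ M, 0 ≤ M ∧ ∀ p ∈ XX A, |f p| ≤ M := by
  obtain ⟨M, hM⟩ := (isCompact_XX (A := A)).exists_bound_of_continuousOn hf
  exact ⟨M, (norm_nonneg _).trans (hM 0 zero_mem_XX), hM⟩

lemma summable_cf (had : ∀ i j, i ≠ j → (A i ∩ A j).Finite) {p : J ⊕ ℕ → ℝ} (hp : p ∈ XX A) :
    Summable (fun i => cf A i p) :=
  summable_of_sum_le (cf_nonneg hp) (cf_sum_le had hp)

lemma tsum_cf_le (had : ∀ i j, i ≠ j → (A i ∩ A j).Finite) {p : J ⊕ ℕ → ℝ} (hp : p ∈ XX A) :
    ∑' i, cf A i p ≤ 1 := (summable_cf had hp).tsum_le_of_sum_le (cf_sum_le had hp)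

lemma summable_term (had : ∀ i j, i ≠ j → (A i ∩ A j).Finite) {p : J ⊕ ℕ → ℝ} (hp : p ∈ XX A)
    {f : (J ⊕ ℕ → ℝ) → ℝ} (hf : ContinuousOn f (XX A)) :
    Summable (fun i => cf A i p * (f (vtx A i) - f 0)) := by
  obtain ⟨M, hM0, hM⟩ := bdd_on hf
  apply Summable.of_norm_bounded ((summable_cf had hp).mul_right (2 * M))
  intro i
  rw [norm_mul, Real.norm_of_nonneg (cf_nonneg hp i)]
  apply mul_le_mul_of_nonneg_left _ (cf_nonneg hp i)
  have h1 := hM _ (vtx_mem_XX i)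
  have h2 := hM _ zero_mem_XX
  rw [Real.norm_eq_abs]
  calc |f (vtx A i) - f 0| ≤ |f (vtx A i)| + |f 0| := abs_sub _ _
    _ ≤ 2 * M := by linarith

/-- The affine envelope. -/
noncomputable def env (A : J → Set ℕ) (f : (J ⊕ ℕ → ℝ) → ℝ) (p : J ⊕ ℕ → ℝ) : ℝ :=
  f 0 + ∑' i, cf A i p * (f (vtx A i) - f 0)

lemma jensen (had : ∀ i j, i ≠ j → (A i ∩ A j).Finite) {p : J ⊕ ℕ → ℝ} (hp : p ∈ XX A)
    {f : (J ⊕ ℕ → ℝ) → ℝ} (hf : ContinuousOn f (XX A)) (hconv : ConvexOn ℝ (XX A) f) :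
    f p ≤ env A f p := by
  have h1 : ∀ H : Finset (J ⊕ ℕ), ∑ i ∈ H, cf A i p • vtx A i ∈ XX A := fun H =>
    comb_mem (cf_nonneg hp) H (cf_sum_le had hp H)
  have h2 : Tendsto (fun H : Finset (J ⊕ ℕ) => f (∑ i ∈ H, cf A i p • vtx A i)) atTop
      (𝓝 (f p)) := by
    have h3 : Tendsto (fun H : Finset (J ⊕ ℕ) => ∑ i ∈ H, cf A i p • vtx A i) atTop
        (𝓝[XX A] p) := by
      rw [tendsto_nhdsWithin_iff]
      exact ⟨hasSum_cf hp, Eventually.of_forall h1⟩
    exact (hf p hp).tendsto.comp h3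
  have h3 : Tendsto (fun H : Finset (J ⊕ ℕ) => f 0 + ∑ i ∈ H, cf A i p * (f (vtx A i) - f 0))
      atTop (𝓝 (env A f p)) := tendsto_const_nhds.add (summable_term had hp hf).hasSum
  apply le_of_tendsto_of_tendsto' h2 h3
  intro H
  have h4 := hconv.map_add_sum_le (t := H) (w := fun i => cf A i p) (p := fun i => vtx A i)
    (q := 0) (v := 1 - ∑ i ∈ H, cf A i p) (fun i _ => cf_nonneg hp i) (by ring)
    (fun i _ => vtx_mem_XX i) (by linarith [cf_sum_le had hp H]) zero_mem_XX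
  rw [smul_zero, zero_add] at h4
  refine h4.trans (le_of_eq ?_)
  simp only [smul_eq_mul, mul_sub, Finset.sum_sub_distrib, ← Finset.sum_mul]
  ring

end Pool.Agent.Work.MP_ee811a_an
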