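import Mathlib
import Pool.Agent.Work.MP_ee811a_an.Jensen

set_option autoImplicit false

open MeasureTheory Filter Topology Set

namespace Pool.Agent.Work.MP_ee811a_an

variable {J : Type} {A : J → Set ℕ}

/-- The Borel sets of `XX A`. -/
local instance (priority := 2000) mXX : MeasurableSpace (XX A) := borel (XX A)

local instance (priority := 2000) bXX : BorelSpace (XX A) := ⟨rfl⟩

instance compactSpace_XX : CompactSpace (XX A) := isCompact_iff_compactSpace.mp isCompact_XX

lemma continuous_val {f : (J ⊕ ℕ → ℝ) → ℝ} (hf : ContinuousOn f (XX A)) :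
    Continuous (fun x : XX A => f x) := continuousOn_iff_continuous_domRestrict.mp hf

lemma integrable_of_cont {K : Type*} [TopologicalSpace K] [CompactSpace K] [MeasurableSpace K]
    [BorelSpace K] (μ : Measure K)
    [IsFiniteMeasure μ] {f : K → ℝ} (hf : Continuous f) : Integrable f μ :=
  hf.integrable_of_hasCompactSupport (HasCompactSupport.of_compactSpace f)

/-- Coordinates satisfy the barycentric formula. -/
lemma bary_coord {μ : RadonProb (XX A)} {x : XX A} (hμ : Represents μ x) (k : J ⊕ ℕ) :
    ∫ p : XX A, (p : J ⊕ ℕ → ℝ) k ∂μ.1 = (x : J ⊕ ℕ → ℝ) k := by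
  have h := hμ (fun p => p k) (continuous_apply k).continuousOn
    ⟨convex_XX, fun p _ q _ a b _ _ _ => by simp⟩ ⟨convex_XX, fun p _ q _ a b _ _ _ => by simp⟩
  exact h.symm

lemma bary_cf {μ : RadonProb (XX A)} {x : XX A} (hμ : Represents μ x) (i : J ⊕ ℕ) :
    Integrable (fun p : XX A => cf A i p) μ.1 ∧ ∫ p : XX A, cf A i p ∂μ.1 = cf A i x := by
  classical
  have : IsProbabilityMeasure μ.1 := μ.2.1
  have hint : ∀ k : J ⊕ ℕ, Integrable (fun p : XX A => (p : J ⊕ ℕ → ℝ) k) μ.1 := fun k =>
    integrable_of_cont _ ((continuous_apply k).comp continuous_subtype_val)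
  rcases i with j | n
  · set F : ℕ → XX A → ℝ := fun n p => if n ∈ A j then (p : J ⊕ ℕ → ℝ) (.inr n) else 0 with hF
    have hFi : ∀ n, Integrable (F n) μ.1 := by
      intro n
      simp only [hF]
      split_ifs
      · exact hint _
      · exact integrable_zero _ _ _
    have hF0 : ∀ n p, 0 ≤ F n p := by
      intro n p
      simp only [hF]
      split_ifs
      · exact p.2.1 n
      · exact le_rfl
    have hFint : ∀ n, ∫ p, F n p ∂μ.1 = if n ∈ A j then (x : J ⊕ ℕ → ℝ) (.inr n) else 0 := by
      intro n
      simp only [hF]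
      split_ifs
      · exact bary_coord hμ _
      · exact integral_zero _ _
    have hFnorm : ∀ n, ∫ p, ‖F n p‖ ∂μ.1 = if n ∈ A j then (x : J ⊕ ℕ → ℝ) (.inr n) else 0 := by
      intro n
      rw [← hFint n]
      congr 1
      funext p
      exact Real.norm_of_nonneg (hF0 n p)
    have hsum : Summable (fun n => ∫ p, ‖F n p‖ ∂μ.1) := by
      simp only [hFnorm]
      exact XX_summable' x.2 j
    have h1 := hasSum_integral_of_summable_integral_norm hFi hsum
    have h2 : ∫ p, ∑' n, F n p ∂μ.1 = ∑' n, if n ∈ A j then (x : J ⊕ ℕ → ℝ) (.inr n) else 0 := by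
      rw [← h1.tsum_eq]
      simp only [hFint]
    have h3 : Integrable (fun p : XX A => ∑' n, F n p) μ.1 := by
      have hmeas : AEStronglyMeasurable (fun p : XX A => ∑' n, F n p) μ.1 := by
        apply Measurable.aestronglyMeasurable
        apply measurable_of_tendsto_metrizable (f := fun N (p : XX A) =>
          ∑ n ∈ Finset.range N, F n p)
        · intro N
          apply Continuous.measurable
          refine continuous_finsetSum _ fun n _ => ?_
          simp only [hF]
          split_ifs
          · exact (continuous_apply _).comp continuous_subtype_val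
          · exact continuous_const
        · rw [tendsto_pi_nhds]
          intro p
          exact (XX_summable' p.2 j).hasSum.tendsto_sum_nat
      apply Integrable.mono' (integrable_const (1 : ℝ)) hmeas
      filter_upwards with p
      rw [Real.norm_of_nonneg (tsum_nonneg fun n => hF0 n p)]
      apply (XX_summable' p.2 j).tsum_le_of_sum_le
      intro G
      refine le_trans (Finset.sum_le_sum fun n _ => ?_) (XX_bound_inr p.2 G)
      split_ifs
      · exact le_rfl
      · exact p.2.1 n
    have h4 : (fun p : XX A => cf A (.inl j) p) =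
        fun p : XX A => ((p : J ⊕ ℕ → ℝ) (.inl j) - ∑' n, F n p) / 2 := rfl
    rw [h4]
    refine ⟨((hint _).sub h3).div_const 2, ?_⟩
    rw [integral_div, integral_sub (hint _) h3, h2, bary_coord hμ]
    rfl
  · exact ⟨hint _, bary_coord hμ _⟩

/-- Any measure representing `x` integrates convex functions below the envelope at `x`. -/
lemma int_le_env (had : ∀ i j, i ≠ j → (A i ∩ A j).Finite) {μ : RadonProb (XX A)} {x : XX A}
    (hμ : Represents μ x) {f : (J ⊕ ℕ → ℝ) → ℝ} (hf : ContinuousOn f (XX A))
    (hconv : ConvexOn ℝ (XX A) f) : μ.int (fun p => f p) ≤ env A f x := by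
  classical
  have : IsProbabilityMeasure μ.1 := μ.2.1
  obtain ⟨M, hM0, hM⟩ := bdd_on hf
  set C : Set (J ⊕ ℕ) := {i | f (vtx A i) ≠ f 0} with hC
  have hCc : C.Countable := countable_supp hf
  have : Countable C := hCc.to_subtype
  set d : J ⊕ ℕ → ℝ := fun i => f (vtx A i) - f 0 with hd
  have hd0 : ∀ i, i ∉ C → d i = 0 := by
    intro i hi
    simp only [hC, mem_ofPred_eq, not_not] at hi
    simp only [hd, hi, sub_self]
  have henv : ∀ p : J ⊕ ℕ → ℝ, env A f p = f 0 + ∑' i : C, cf A i p * d i := by
    intro p
    unfold env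
    congr 1
    symm
    apply tsum_subtype_eq_of_support_subset (f := fun i => cf A i p * d i)
    intro i hi
    by_contra hcon
    apply hi
    show cf A i p * d i = 0
    rw [hd0 i hcon, mul_zero]
  have hdb : ∀ i, |d i| ≤ 2 * M := by
    intro i
    have h1 := hM _ (vtx_mem_XX i)
    have h2 := hM _ zero_mem_XX
    calc |f (vtx A i) - f 0| ≤ |f (vtx A i)| + |f 0| := abs_sub _ _
      _ ≤ 2 * M := by linarith
  set G : C → XX A → ℝ := fun i p => cf A i p * d i with hG
  have hGi : ∀ i, Integrable (G i) μ.1 := fun i => (bary_cf hμ i).1.mul_const _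
  have hGn : ∀ i : C, ∫ p, ‖G i p‖ ∂μ.1 = cf A i x * |d i| := by
    intro i
    have h1 : (fun p : XX A => ‖G i p‖) = fun p : XX A => cf A i p * |d i| := by
      funext p
      simp only [hG]
      rw [norm_mul, Real.norm_of_nonneg (cf_nonneg p.2 _), Real.norm_eq_abs]
    rw [h1, integral_mul_const, (bary_cf hμ i).2]
  have hGs : Summable (fun i => ∫ p, ‖G i p‖ ∂μ.1) := by
    simp only [hGn]
    apply Summable.of_nonneg_of_le _ _
      (((summable_cf had x.2).mul_right (2 * M)).subtype C)
    · intro i
      exact mul_nonneg (cf_nonneg x.2 _) (abs_nonneg _)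
    · intro i
      exact mul_le_mul_of_nonneg_left (hdb i.1) (cf_nonneg x.2 _)
  have h1 := hasSum_integral_of_summable_integral_norm hGi hGs
  have h2 : ∫ p, ∑' i, G i p ∂μ.1 = ∑' i : C, cf A i x * d i := by
    rw [← h1.tsum_eq]
    congr 1
    funext i
    simp only [hG]
    rw [integral_mul_const, (bary_cf hμ i).2]
  have hGp : ∀ p : XX A, Summable (fun i => G i p) := by
    intro p
    exact (summable_term had p.2 hf).subtype C
  have h3 : Integrable (fun p => ∑' i, G i p) μ.1 := by
    have hmeas : AEStronglyMeasurable (fun p => ∑' i, G i p) μ.1 := by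
      apply aestronglyMeasurable_of_tendsto_ae (u := (atTop : Filter (Finset C)))
        (f := fun H p => ∑ i ∈ H, G i p)
      · intro H
        exact (integrable_finsetSum H fun i _ => hGi i).aestronglyMeasurable
      · filter_upwards with p
        exact (hGp p).hasSum
    apply Integrable.mono' (integrable_const (2 * M)) hmeas
    filter_upwards with p
    have h5 : ‖∑' i, G i p‖ ≤ ∑' i : C, cf A i p * (2 * M) := by
      apply tsum_of_norm_bounded (((summable_cf had p.2).mul_right (2 * M)).subtype C).hasSum
      intro i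
      simp only [hG]
      rw [norm_mul, Real.norm_of_nonneg (cf_nonneg p.2 _), Real.norm_eq_abs]
      exact mul_le_mul_of_nonneg_left (hdb i.1) (cf_nonneg p.2 _)
    refine h5.trans ?_
    rw [tsum_mul_right]
    have h6 : ∑' i : C, cf A i p ≤ 1 := by
      refine le_trans ?_ (tsum_cf_le had p.2)
      exact (summable_cf had p.2).tsum_subtype_le _ C (cf_nonneg p.2)
    nlinarith
  have h4 : μ.int (fun p => f p) ≤ ∫ p : XX A, (f 0 + ∑' i, G i p) ∂μ.1 := by
    apply integral_mono (integrable_of_cont _ (continuous_val hf))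
      ((integrable_const _).add h3)
    intro p
    have := jensen had p.2 hf hconv
    rw [henv] at this
    exact this
  rw [integral_add (integrable_const _) h3, h2] at h4
  rw [henv]
  simpa using h4

end Pool.Agent.Work.MP_ee811a_an
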