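import Mathlib
import Pool.Agent.Work.MP_ee811a_an.Meas

set_option autoImplicit false

open MeasureTheory Filter Topology Set

namespace Pool.Agent.Work.MP_ee811a_an

variable {J : Type} {A : J → Set ℕ}

local instance (priority := 2000) mXX' : MeasurableSpace (XX A) := borel (XX A)

local instance (priority := 2000) bXX' : BorelSpace (XX A) := ⟨rfl⟩

/-- The origin as a point of `XX A`. -/
def OO (A : J → Set ℕ) : XX A := ⟨0, zero_mem_XX⟩

/-- The vertices as points of `XX A`. -/
noncomputable def VV (A : J → Set ℕ) (i : J ⊕ ℕ) : XX A := ⟨vtx A i, vtx_mem_XX i⟩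

/-- The discrete measure with the given coordinates. -/
noncomputable def dm (x : XX A) : Measure (XX A) :=
  Measure.sum (fun i => ENNReal.ofReal (cf A i x) • Measure.dirac (VV A i)) +
    ENNReal.ofReal (1 - ∑' i, cf A i x) • Measure.dirac (OO A)

lemma dm_univ (had : ∀ i j, i ≠ j → (A i ∩ A j).Finite) (x : XX A) : dm x univ = 1 := by
  unfold dm
  rw [Measure.add_apply, Measure.sum_apply _ MeasurableSet.univ]
  simp only [Measure.smul_apply, measure_univ, smul_eq_mul, mul_one]
  rw [← ENNReal.ofReal_tsum_of_nonneg (cf_nonneg x.2) (summable_cf had x.2),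
    ← ENNReal.ofReal_add (tsum_nonneg (cf_nonneg x.2))
      (by linarith [tsum_cf_le had x.2])]
  simp

lemma dm_prob (had : ∀ i j, i ≠ j → (A i ∩ A j).Finite) (x : XX A) :
    IsProbabilityMeasure (dm x) := ⟨dm_univ had x⟩

lemma dm_int (had : ∀ i j, i ≠ j → (A i ∩ A j).Finite) (x : XX A) {f : (J ⊕ ℕ → ℝ) → ℝ}
    (hf : ContinuousOn f (XX A)) : ∫ p : XX A, f p ∂(dm x) = env A f x := by
  have := dm_prob had x
  have hint : Integrable (fun p : XX A => f p) (dm x) :=
    integrable_of_cont _ (continuous_val hf)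
  have h1 : Integrable (fun p : XX A => f p)
      (Measure.sum (fun i => ENNReal.ofReal (cf A i x) • Measure.dirac (VV A i))) :=
    hint.mono_measure (Measure.le_add_right le_rfl)
  have h2 : Integrable (fun p : XX A => f p)
      (ENNReal.ofReal (1 - ∑' i, cf A i x) • Measure.dirac (OO A)) :=
    hint.mono_measure (Measure.le_add_left le_rfl)
  have h3 := hasSum_integral_measure h1
  unfold dm
  rw [integral_add_measure h1 h2, ← h3.tsum_eq]
  have h4 : ∀ i, ∫ p : XX A, f p ∂(ENNReal.ofReal (cf A i x) • Measure.dirac (VV A i)) =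
      cf A i x * f (vtx A i) := by
    intro i
    rw [integral_smul_measure, integral_dirac, ENNReal.toReal_ofReal (cf_nonneg x.2 i)]
    rfl
  rw [integral_smul_measure, integral_dirac, ENNReal.toReal_ofReal
    (by linarith [tsum_cf_le had x.2])]
  simp only [h4]
  have h5 : Summable (fun i => cf A i x * f (vtx A i)) := by
    have h6 := (summable_term had x.2 hf).add ((summable_cf had x.2).mul_right (f 0))
    refine h6.congr ?_
    intro i; ring
  unfold env
  have h7 : (fun i => cf A i x * (f (vtx A i) - f 0)) =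
      fun i => cf A i x * f (vtx A i) - cf A i x * f 0 := by
    funext i; ring
  rw [h7, h5.tsum_sub ((summable_cf had x.2).mul_right _), tsum_mul_right]
  simp only [OO, smul_eq_mul]
  ring

lemma exists_tau (had : ∀ i j, i ≠ j → (A i ∩ A j).Finite) (x : XX A) :
    ∃ μ : RadonProb (XX A), ∀ f : (J ⊕ ℕ → ℝ) → ℝ, ContinuousOn f (XX A) →
      μ.int (fun p => f p) = env A f x := by
  have := dm_prob had x
  obtain ⟨ν, hreg, hfin, hν⟩ := Measure.exists_regular_eq_of_compactSpace (dm x)
  have h1 : ν univ = 1 := by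
    have h2 := hν 1
    simp only [BoundedContinuousFunction.coe_one, Pi.one_apply, integral_const, smul_eq_mul,
      mul_one, measureReal_def, measure_univ, ENNReal.toReal_one] at h2
    have h3 : (ν univ).toReal = 1 := h2.symm
    rw [← ENNReal.ofReal_toReal (measure_ne_top ν univ), h3, ENNReal.ofReal_one]
  refine ⟨⟨ν, ⟨h1⟩, hreg⟩, ?_⟩
  intro f hf
  rw [← dm_int had x hf]
  exact (hν (BoundedContinuousFunction.mkOfCompact ⟨fun p : XX A => f p, continuous_val hf⟩)).symm

/-- The measure `T(x)`. -/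
noncomputable def tau (had : ∀ i j, i ≠ j → (A i ∩ A j).Finite) (x : XX A) : RadonProb (XX A) :=
  (exists_tau had x).choose

lemma tau_int (had : ∀ i j, i ≠ j → (A i ∩ A j).Finite) (x : XX A) {f : (J ⊕ ℕ → ℝ) → ℝ}
    (hf : ContinuousOn f (XX A)) : (tau had x).int (fun p => f p) = env A f x :=
  (exists_tau had x).choose_spec f hf

lemma env_neg (f : (J ⊕ ℕ → ℝ) → ℝ) (p : J ⊕ ℕ → ℝ) :
    env A (fun q => -f q) p = -env A f p := by
  unfold env
  have : (fun i => cf A i p * (-f (vtx A i) - -f 0)) =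
      fun i => -(cf A i p * (f (vtx A i) - f 0)) := by
    funext i; ring
  rw [this, tsum_neg]
  ring

lemma tau_represents (had : ∀ i j, i ≠ j → (A i ∩ A j).Finite) (x : XX A) :
    Represents (tau had x) x := by
  intro a ha h1 h2
  rw [tau_int had x ha]
  apply le_antisymm (jensen had x.2 ha h1)
  have h3 := jensen had x.2 ha.neg h2.neg
  have h4 : env A (-a) x = -env A a x := env_neg a x
  rw [h4] at h3
  simp only [Pi.neg_apply] at h3
  linarith

lemma precedes_tau (had : ∀ i j, i ≠ j → (A i ∩ A j).Finite) {μ : RadonProb (XX A)} {x : XX A}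
    (hμ : Represents μ x) : Precedes μ (tau had x) := by
  intro f hf hconv
  rw [tau_int had x hf]
  exact int_le_env had hμ hf hconv

/-- Differences of continuous convex functions. -/
def DC (A : J → Set ℕ) : Set C(XX A, ℝ) :=
  {F | ∃ g h : (J ⊕ ℕ → ℝ) → ℝ, ContinuousOn g (XX A) ∧ ConvexOn ℝ (XX A) g ∧
    ContinuousOn h (XX A) ∧ ConvexOn ℝ (XX A) h ∧ ∀ x : XX A, F x = g x - h x}

lemma DC_dense : closure (DC A) = ⊤ := by
  apply ContinuousMap.sublattice_closure_eq_top
  · exact ⟨0, fun _ => 0, fun _ => 0, continuousOn_const, convexOn_const _ convex_XX,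
      continuousOn_const, convexOn_const _ convex_XX, fun x => by simp⟩
  · rintro F ⟨g1, h1, hg1, hg1', hh1, hh1', hF⟩ G ⟨g2, h2, hg2, hg2', hh2, hh2', hG⟩
    refine ⟨g1 + g2, (g1 + h2) ⊔ (g2 + h1), hg1.add hg2, hg1'.add hg2', ?_, ?_, ?_⟩
    · exact (hg1.add hh2).sup (hg2.add hh1)
    · exact (hg1'.add hh2').sup (hg2'.add hh1')
    · intro x
      show F x ⊓ G x = (g1 x + g2 x) - ((g1 x + h2 x) ⊔ (g2 x + h1 x))
      rw [hF, hG]
      rcases le_total (g1 x - h1 x) (g2 x - h2 x) with h | h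
      · rw [inf_eq_left.mpr h, sup_eq_right.mpr (by linarith)]; ring
      · rw [inf_eq_right.mpr h, sup_eq_left.mpr (by linarith)]; ring
  · rintro F ⟨g1, h1, hg1, hg1', hh1, hh1', hF⟩ G ⟨g2, h2, hg2, hg2', hh2, hh2', hG⟩
    refine ⟨(g1 + h2) ⊔ (g2 + h1), h1 + h2, ?_, ?_, hh1.add hh2, hh1'.add hh2', ?_⟩
    · exact (hg1.add hh2).sup (hg2.add hh1)
    · exact (hg1'.add hh2').sup (hg2'.add hh1')
    · intro x
      show F x ⊔ G x = ((g1 x + h2 x) ⊔ (g2 x + h1 x)) - (h1 x + h2 x)
      rw [hF, hG]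
      rcases le_total (g1 x - h1 x) (g2 x - h2 x) with h | h
      · rw [sup_eq_right.mpr h, sup_eq_right.mpr (by linarith)]; ring
      · rw [sup_eq_left.mpr h, sup_eq_left.mpr (by linarith)]; ring
  · intro v x y
    by_cases hxy : x = y
    · subst hxy
      refine ⟨ContinuousMap.const _ (v x), ⟨fun _ => v x, fun _ => 0, continuousOn_const,
        convexOn_const _ convex_XX, continuousOn_const, convexOn_const _ convex_XX,
        fun z => by simp⟩, rfl, rfl⟩
    · have h1 : (x : J ⊕ ℕ → ℝ) ≠ y := fun h => hxy (Subtype.ext h)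
      obtain ⟨k, hk⟩ := Function.ne_iff.mp h1
      have hk' : (x : J ⊕ ℕ → ℝ) k - (y : J ⊕ ℕ → ℝ) k ≠ 0 := sub_ne_zero.mpr hk
      set c : ℝ := (v x - v y) / ((x : J ⊕ ℕ → ℝ) k - (y : J ⊕ ℕ → ℝ) k) with hc
      set g : (J ⊕ ℕ → ℝ) → ℝ := fun p => c * (p k - (y : J ⊕ ℕ → ℝ) k) + v y with hg
      have hgc : Continuous g := by
        simp only [hg]
        fun_prop
      have hgconv : ConvexOn ℝ (XX A) g := by
        refine ⟨convex_XX, fun p _ q _ a b _ _ hab => le_of_eq ?_⟩
        simp only [hg, Pi.add_apply, Pi.smul_apply, smul_eq_mul]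
        have hb : b = 1 - a := by linarith
        subst hb
        ring
      refine ⟨⟨fun p : XX A => g p, hgc.comp continuous_subtype_val⟩,
        ⟨g, fun _ => 0, hgc.continuousOn, hgconv, continuousOn_const,
          convexOn_const _ convex_XX, fun z => by simp⟩, ?_, ?_⟩
      · show c * ((x : J ⊕ ℕ → ℝ) k - (y : J ⊕ ℕ → ℝ) k) + v y = v x
        rw [hc, div_mul_cancel₀ _ hk']; ring
      · show c * ((y : J ⊕ ℕ → ℝ) k - (y : J ⊕ ℕ → ℝ) k) + v y = v y
        ring

lemma continuous_int (μ : Measure (XX A)) [IsProbabilityMeasure μ] :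
    Continuous (fun F : C(XX A, ℝ) => ∫ p, F p ∂μ) := by
  apply LipschitzWith.continuous (K := 1)
  apply LipschitzWith.of_dist_le_mul
  intro F G
  rw [NNReal.coe_one, one_mul, Real.dist_eq, ← integral_sub (integrable_of_cont _ F.continuous)
    (integrable_of_cont _ G.continuous), ← Real.norm_eq_abs]
  have h := norm_integral_le_of_norm_le_const (μ := μ) (f := fun p => F p - G p) (C := dist F G)
    (by
      filter_upwards with p
      have h2 : dist (F p) (G p) ≤ dist F G := ContinuousMap.dist_apply_le_dist p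
      rwa [dist_eq_norm] at h2)
  simpa using h

lemma radon_ext {μ ν : RadonProb (XX A)} (h1 : Precedes μ ν) (h2 : Precedes ν μ) : ν = μ := by
  have := μ.2.1
  have := ν.2.1
  have := μ.2.2
  have := ν.2.2
  have hconv : ∀ f : (J ⊕ ℕ → ℝ) → ℝ, ContinuousOn f (XX A) → ConvexOn ℝ (XX A) f →
      ∫ p : XX A, f p ∂μ.1 = ∫ p : XX A, f p ∂ν.1 := fun f hf hfc =>
    le_antisymm (h1 f hf hfc) (h2 f hf hfc)
  have hclosed : IsClosed {F : C(XX A, ℝ) | ∫ p, F p ∂μ.1 = ∫ p, F p ∂ν.1} :=
    isClosed_eq (continuous_int _) (continuous_int _)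
  have hsub : DC A ⊆ {F : C(XX A, ℝ) | ∫ p, F p ∂μ.1 = ∫ p, F p ∂ν.1} := by
    rintro F ⟨g, h, hg, hg', hh, hh', hF⟩
    show ∫ p, F p ∂μ.1 = ∫ p, F p ∂ν.1
    simp only [hF]
    rw [integral_sub (integrable_of_cont _ (continuous_val hg))
      (integrable_of_cont _ (continuous_val hh)),
      integral_sub (integrable_of_cont _ (continuous_val hg))
      (integrable_of_cont _ (continuous_val hh)), hconv g hg hg', hconv h hh hh']
  have hall : ∀ F : C(XX A, ℝ), ∫ p, F p ∂μ.1 = ∫ p, F p ∂ν.1 := by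
    intro F
    have h3 : F ∈ closure (DC A) := by rw [DC_dense]; trivial
    exact closure_minimal hsub hclosed h3
  apply Subtype.ext
  symm
  apply Measure.ext_of_integral_eq_on_compactlySupported
  intro F
  exact hall F.toContinuousMap

lemma precedes_represents {μ ν : RadonProb (XX A)} {x : XX A} (h : Precedes μ ν)
    (hμ : Represents μ x) : Represents ν x := by
  intro a ha h1 h2
  have e1 := hμ a ha h1 h2
  have e2 := h a ha h1
  have e3 := h (-a) ha.neg h2.neg
  have e4 : ∀ ρ : RadonProb (XX A), ρ.int (fun p => (-a) p) = -ρ.int (fun p => a p) := by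
    intro ρ
    exact integral_neg _
  rw [e4, e4] at e3
  rw [e1]
  linarith

lemma tau_maximal (had : ∀ i j, i ≠ j → (A i ∩ A j).Finite) (x : XX A) :
    IsMaximal (tau had x) := by
  intro ν hν
  exact radon_ext hν (precedes_tau had (precedes_represents hν (tau_represents had x)))

lemma tau_unique (had : ∀ i j, i ≠ j → (A i ∩ A j).Finite) {μ : RadonProb (XX A)} {x : XX A}
    (h1 : IsMaximal μ) (h2 : Represents μ x) : μ = tau had x :=
  (h1 _ (precedes_tau had h2)).symm

lemma isSimplex_XX (had : ∀ i j, i ≠ j → (A i ∩ A j).Finite) : IsSimplex (XX A) := by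
  intro x
  exact ⟨tau had x, ⟨tau_maximal had x, tau_represents had x⟩,
    fun μ hμ => tau_unique had hμ.1 hμ.2⟩

end Pool.Agent.Work.MP_ee811a_an
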