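import Mathlib
import Pool.Agent.Work.MP_ee811a_an.TMeas
import Pool.Agent.Work.MP_ee811a_an.Family

set_option autoImplicit false

open MeasureTheory Filter Topology Set

namespace Pool.Agent.Work.MP_ee811a_an

variable {J : Type} {A : J → Set ℕ}

local instance (priority := 2000) mXX'' : MeasurableSpace (XX A) := borel (XX A)

local instance (priority := 2000) bXX'' : BorelSpace (XX A) := ⟨rfl⟩

/-! ### The extreme boundary -/

/-- The closed part of the boundary. -/
def C0 (A : J → Set ℕ) : Set (XX A) :=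
  {x | (∀ n, (x : J ⊕ ℕ → ℝ) (.inr n) = 0) ∧
    (∀ i j, i ≠ j → (x : J ⊕ ℕ → ℝ) (.inl i) * (x : J ⊕ ℕ → ℝ) (.inl j) = 0) ∧
    (∀ j, (x : J ⊕ ℕ → ℝ) (.inl j) * ((x : J ⊕ ℕ → ℝ) (.inl j) - 2) = 0)}

lemma isClosed_C0 : IsClosed (C0 A) := by
  have hc : ∀ k : J ⊕ ℕ, Continuous (fun x : XX A => (x : J ⊕ ℕ → ℝ) k) := fun k =>
    (continuous_apply k).comp continuous_subtype_val
  have h1 : IsClosed {x : XX A | ∀ n, (x : J ⊕ ℕ → ℝ) (.inr n) = 0} := by
    simp only [ofPred_forall]
    exact isClosed_iInter fun n => isClosed_eq (hc _) continuous_const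
  have h2 : IsClosed {x : XX A | ∀ i j, i ≠ j →
      (x : J ⊕ ℕ → ℝ) (.inl i) * (x : J ⊕ ℕ → ℝ) (.inl j) = 0} := by
    simp only [ofPred_forall]
    exact isClosed_iInter fun i => isClosed_iInter fun j => isClosed_iInter fun _ =>
      isClosed_eq ((hc _).mul (hc _)) continuous_const
  have h3 : IsClosed {x : XX A | ∀ j,
      (x : J ⊕ ℕ → ℝ) (.inl j) * ((x : J ⊕ ℕ → ℝ) (.inl j) - 2) = 0} := by
    simp only [ofPred_forall]
    exact isClosed_iInter fun j =>
      isClosed_eq ((hc _).mul ((hc _).sub continuous_const)) continuous_const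
  exact h1.inter (h2.inter h3)

lemma mem_C0_iff (x : XX A) : x ∈ C0 A ↔ (x : J ⊕ ℕ → ℝ) = 0 ∨ ∃ j, (x : J ⊕ ℕ → ℝ) =
    vtx A (.inl j) := by
  classical
  constructor
  · rintro ⟨h1, h2, h3⟩
    by_cases h : ∀ j, (x : J ⊕ ℕ → ℝ) (.inl j) = 0
    · left
      funext k
      rcases k with j | n
      · exact h j
      · exact h1 n
    · right
      push Not at h
      obtain ⟨j, hj⟩ := h
      refine ⟨j, ?_⟩
      funext k
      rcases k with i | n
      · simp only [vtx, Sum.inl.injEq]
        by_cases hij : i = j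
        · subst hij
          rw [if_pos rfl]
          rcases mul_eq_zero.mp (h3 i) with h4 | h4
          · exact absurd h4 hj
          · linarith
        · rw [if_neg hij]
          rcases mul_eq_zero.mp (h2 i j hij) with h4 | h4
          · exact h4
          · exact absurd h4 hj
      · simp only [vtx]
        rw [h1 n, if_neg (by simp)]
  · rintro (h | ⟨j, h⟩)
    · refine ⟨?_, ?_, ?_⟩
      · intro n; rw [h]; rfl
      · intro i j _; rw [h]; simp
      · intro j; rw [h]; simp
    · refine ⟨?_, ?_, ?_⟩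
      · intro n; rw [h]; simp [vtx]
      · intro i k hik
        rw [h]
        simp only [vtx, Sum.inl.injEq]
        by_cases h4 : i = j
        · subst h4
          rw [if_neg (fun hh : k = i => hik hh.symm), mul_zero]
        · rw [if_neg h4, zero_mul]
      · intro k
        rw [h]
        simp only [vtx, Sum.inl.injEq]
        split_ifs <;> norm_num

lemma isFsigma_ext (had : ∀ i j, i ≠ j → (A i ∩ A j).Finite) :
    IsFsigma (extBoundary (XX A)) := by
  refine ⟨fun n => Nat.casesOn n (C0 A) (fun m => {VV A (.inr m)}), ?_, ?_⟩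
  · intro n
    rcases n with _ | m
    · exact isClosed_C0
    · exact isClosed_singleton
  · ext x
    rw [mem_iUnion]
    show (x : J ⊕ ℕ → ℝ) ∈ (XX A).extremePoints ℝ ↔ _
    rw [extreme_iff had]
    constructor
    · rintro (h | ⟨j | n, h⟩)
      · exact ⟨0, (mem_C0_iff x).mpr (Or.inl h)⟩
      · exact ⟨0, (mem_C0_iff x).mpr (Or.inr ⟨j, h⟩)⟩
      · exact ⟨n + 1, Subtype.ext h⟩
    · rintro ⟨n, hn⟩
      rcases n with _ | m
      · rcases (mem_C0_iff x).mp hn with h | ⟨j, h⟩
        · exact Or.inl h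
        · exact Or.inr ⟨_, h⟩
      · exact Or.inr ⟨.inr m, congrArg Subtype.val hn⟩

lemma IsFsigma.isKAnalytic {K : Type*} [TopologicalSpace K] [CompactSpace K] {S : Set K}
    (h : IsFsigma S) : IsKAnalytic S := by
  obtain ⟨C, hC, rfl⟩ := h
  refine ⟨fun σ => C (σ 0), fun σ => (hC _).isCompact, ?_, ?_⟩
  · intro σ U _ hU
    have h1 : {τ : ℕ → ℕ | τ 0 = σ 0} ∈ 𝓝 σ := by
      have h2 : IsOpen {τ : ℕ → ℕ | τ 0 = σ 0} := by
        have h4 : Continuous (fun τ : ℕ → ℕ => τ 0) := continuous_apply 0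
        exact (isOpen_discrete ({σ 0} : Set ℕ)).preimage h4
      exact h2.mem_nhds rfl
    filter_upwards [h1] with τ hτ
    have h3 : τ 0 = σ 0 := hτ
    rw [h3]
    exact hU
  · ext x
    simp only [mem_iUnion]
    constructor
    · rintro ⟨n, hn⟩
      exact ⟨fun _ => n, hn⟩
    · rintro ⟨σ, hσ⟩
      exact ⟨σ 0, hσ⟩

/-! ### The map `T` is not of the first Baire class -/

/-- The test functions. -/
noncomputable def phi (j : J) (p : J ⊕ ℕ → ℝ) : ℝ := max (p (.inl j) - 1) 0

lemma continuous_phi (j : J) : Continuous (phi j) := by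
  unfold phi
  fun_prop

lemma phi_nonneg (j : J) (p : J ⊕ ℕ → ℝ) : 0 ≤ phi j p := le_max_right _ _

lemma phi_vtx (j : J) (i : J ⊕ ℕ) [Decidable (i = .inl j)] :
    phi j (vtx A i) = if i = .inl j then 1 else 0 := by
  classical
  unfold phi
  rcases i with k | n
  · simp only [vtx, Sum.inl.injEq]
    by_cases h : j = k
    · subst h; simp; norm_num
    · rw [if_neg h, if_neg (fun hh => h hh.symm)]
      norm_num
  · have h1 : vtx A (.inr n) (.inl j) = if n ∈ A j then (1 : ℝ) else 0 := rfl
    rw [h1, if_neg (c := (Sum.inr n : J ⊕ ℕ) = Sum.inl j) (by simp)]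
    split_ifs <;> norm_num

lemma phi_zero (j : J) : phi j 0 = 0 := by
  unfold phi; simp

lemma env_phi (j : J) (x : J ⊕ ℕ → ℝ) : env A (phi j) x = cf A (.inl j) x := by
  classical
  unfold env
  rw [phi_zero, zero_add, tsum_eq_single (.inl j)]
  · rw [phi_vtx, if_pos rfl]; ring
  · intro i hi
    rw [phi_vtx, if_neg hi]; ring

lemma phi_le (had : ∀ i j, i ≠ j → (A i ∩ A j).Finite) (j : J) {p : J ⊕ ℕ → ℝ}
    (hp : p ∈ XX A) : phi j p ≤ cf A (.inl j) p := by
  classical
  apply max_le _ (cf_nonneg hp _)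
  have h1 : (∑' n, if n ∈ A j then p (.inr n) else 0) ≤ 1 - cf A (.inl j) p := by
    apply (XX_summable' hp j).tsum_le_of_sum_le
    intro F
    have h2 := cf_sum_le_aux had hp {j} F
    rw [Finset.sum_singleton] at h2
    have h3 : ∑ n ∈ F, (if n ∈ A j then p (.inr n) else 0) ≤ ∑ n ∈ F, cf A (.inr n) p := by
      apply Finset.sum_le_sum
      intro n _
      simp only [cf]
      split_ifs
      · exact le_rfl
      · exact hp.1 n
    linarith
  have h4 : cf A (.inl j) p = (p (.inl j) - ∑' n, if n ∈ A j then p (.inr n) else 0) / 2 := rfl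
  linarith

lemma countable_phi (had : ∀ i j, i ≠ j → (A i ∩ A j).Finite) (ν : RadonProb (XX A)) :
    {j : J | ν.int (fun p => phi j p) ≠ 0}.Countable := by
  have := ν.2.1
  have hint : ∀ j : J, Integrable (fun p : XX A => phi j p) ν.1 := fun j =>
    integrable_of_cont _ ((continuous_phi j).comp continuous_subtype_val)
  have h1 : Summable (fun j : J => ν.int (fun p => phi j p)) := by
    apply summable_of_sum_le (c := 1)
    · intro j
      exact integral_nonneg fun p => phi_nonneg j p
    · intro G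
      have h2 : ∑ j ∈ G, ν.int (fun p => phi j p) = ∫ p : XX A, ∑ j ∈ G, phi j p ∂ν.1 := by
        rw [integral_finsetSum]
        · rfl
        · intro j _
          exact hint j
      rw [h2]
      have h3 : ∫ p : XX A, ∑ j ∈ G, phi j p ∂ν.1 ≤ ∫ _p : XX A, (1 : ℝ) ∂ν.1 := by
        apply integral_mono (integrable_finsetSum G fun j _ => hint j) (integrable_const _)
        intro p
        have h4 := cf_sum_le_aux had p.2 G ∅
        rw [Finset.sum_empty, add_zero] at h4
        exact (Finset.sum_le_sum fun j _ => phi_le had j p.2).trans h4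
      refine h3.trans ?_
      simp
  exact h1.countable_support

/-- The midpoint of the origin and a vertex. -/
noncomputable def bb (A : J → Set ℕ) (j : J) : XX A :=
  ⟨(1 / 2 : ℝ) • vtx A (.inl j) + (1 / 2 : ℝ) • 0,
    convex_XX (vtx_mem_XX _) zero_mem_XX (by norm_num) (by norm_num) (by norm_num)⟩

lemma cf_bb (j : J) : cf A (.inl j) (bb A j) = 1 / 2 := by
  classical
  unfold bb
  rw [cf_comb _ (vtx_mem_XX _) zero_mem_XX, cf_vtx, if_pos rfl, cf_zero]
  ring

lemma tendsto_bb (had : ∀ i j, i ≠ j → (A i ∩ A j).Finite) (j : J) :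
    Tendsto (fun n => VV A (.inr n)) (cofinite ⊓ 𝓟 (A j)) (𝓝 (bb A j)) := by
  classical
  rw [tendsto_subtype_rng, tendsto_pi_nhds]
  intro k
  apply tendsto_const_nhds.congr'
  rcases k with i | m
  · by_cases hij : i = j
    · subst hij
      have : A i ∈ cofinite ⊓ 𝓟 (A i) := mem_inf_of_right (mem_principal_self _)
      filter_upwards [this] with n hn
      simp [VV, bb, vtx, hn]
    · have h1 : (A i ∩ A j)ᶜ ∈ cofinite ⊓ 𝓟 (A j) :=
        mem_inf_of_left (had i j hij).compl_mem_cofinite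
      have h2 : A j ∈ cofinite ⊓ 𝓟 (A j) := mem_inf_of_right (mem_principal_self _)
      filter_upwards [h1, h2] with n hn1 hn2
      have h3 : n ∉ A i := fun h => hn1 ⟨h, hn2⟩
      simp [VV, bb, vtx, h3, hij]
  · have h1 : {m}ᶜ ∈ cofinite ⊓ 𝓟 (A j) :=
      mem_inf_of_left (finite_singleton m).compl_mem_cofinite
    filter_upwards [h1] with n hn
    have h3 : m ≠ n := fun h => hn h.symm
    simp [VV, bb, vtx, h3]

lemma not_baireOne (hinf : ∀ j, (A j).Infinite) (had : ∀ i j, i ≠ j → (A i ∩ A j).Finite)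
    (hunc : ¬ (univ : Set J).Countable) (T : XX A → RadonProb (XX A))
    (hT : ∀ x, IsMaximal (T x) ∧ Represents (T x) x) : ¬ IsBaireOne T := by
  rintro ⟨S, hS, hlim⟩
  have hD : (⋃ k : ℕ, ⋃ n : ℕ,
      {j : J | (S k (VV A (.inr n))).int (fun p => phi j p) ≠ 0}).Countable :=
    countable_iUnion fun k => countable_iUnion fun n => countable_phi had _
  obtain ⟨j, hj⟩ : ∃ j : J, j ∉ (⋃ k : ℕ, ⋃ n : ℕ,
      {j : J | (S k (VV A (.inr n))).int (fun p => phi j p) ≠ 0}) := by
    by_contra hcon
    push Not at hcon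
    exact hunc (hD.mono fun j _ => hcon j)
  have hzero : ∀ k n, (S k (VV A (.inr n))).int (fun p => phi j p) = 0 := by
    intro k n
    by_contra hcon
    exact hj (mem_iUnion.mpr ⟨k, mem_iUnion.mpr ⟨n, hcon⟩⟩)
  have hcont : Continuous (fun μ : RadonProb (XX A) => μ.int (fun p => phi j p)) := by
    have h1 : Continuous (fun (μ : RadonProb (XX A)) (f : C(XX A, ℝ)) => μ.int f) :=
      continuous_induced_dom
    exact (continuous_apply (⟨fun p : XX A => phi j p,
      (continuous_phi j).comp continuous_subtype_val⟩ : C(XX A, ℝ))).comp h1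
  have hne : (cofinite ⊓ 𝓟 (A j)).NeBot := cofinite_inf_principal_neBot_iff.mpr (hinf j)
  have h1 : ∀ k, (S k (bb A j)).int (fun p => phi j p) = 0 := by
    intro k
    have h2 : Tendsto (fun n => (S k (VV A (.inr n))).int (fun p => phi j p))
        (cofinite ⊓ 𝓟 (A j)) (𝓝 ((S k (bb A j)).int (fun p => phi j p))) :=
      ((hcont.comp (hS k)).tendsto (bb A j)).comp (tendsto_bb had j)
    simp only [hzero] at h2
    exact (tendsto_nhds_unique h2 tendsto_const_nhds)
  have h2 : Tendsto (fun k => (S k (bb A j)).int (fun p => phi j p)) atTop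
      (𝓝 ((T (bb A j)).int (fun p => phi j p))) :=
    (hcont.tendsto _).comp (hlim (bb A j))
  simp only [h1] at h2
  have h3 := tendsto_nhds_unique h2 tendsto_const_nhds
  rw [tau_unique had (hT (bb A j)).1 (hT (bb A j)).2,
    tau_int had _ (continuous_phi j).continuousOn, env_phi, cf_bb] at h3
  norm_num at h3

end Pool.Agent.Work.MP_ee811a_an
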